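import Mathlib

/-! Radial maps in inner product spaces, for the part ADT of project RB. -/

set_option autoImplicit false

namespace Pool.Agent.H44.RB

variable {V : Type} [NormedAddCommGroup V] [InnerProductSpace ℝ V]

theorem le_of_sq_le_sq₀ {a b : ℝ} (h : a ^ 2 ≤ b ^ 2) (hb : 0 ≤ b) : a ≤ b :=
  (le_abs_self a).trans (abs_le_of_sq_le_sq h hb)

/-- radial maps are Lipschitz -/
theorem rad (v w : V) (α β L : ℝ) (hα : 0 ≤ α) (hβ : 0 ≤ β) (hL : 0 ≤ L)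
    (h1 : |α - β| ≤ L * |‖v‖ - ‖w‖|) (h2 : α ≤ L * ‖v‖) (h3 : β ≤ L * ‖w‖) :
    ‖(α / ‖v‖) • v - (β / ‖w‖) • w‖ ≤ L * ‖v - w‖ := by
  rcases eq_or_ne v 0 with rfl | hv
  · rcases eq_or_ne w 0 with rfl | hw
    · simp
    · have ht : 0 < ‖w‖ := norm_pos_iff.2 hw
      rw [smul_zero, zero_sub, zero_sub, norm_neg, norm_neg, norm_smul, Real.norm_eq_abs,
        abs_of_nonneg (div_nonneg hβ ht.le), div_mul_cancel₀ _ ht.ne']
      exact h3
  rcases eq_or_ne w 0 with rfl | hw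
  · have hs : 0 < ‖v‖ := norm_pos_iff.2 hv
    rw [smul_zero, sub_zero, sub_zero, norm_smul, Real.norm_eq_abs,
      abs_of_nonneg (div_nonneg hα hs.le), div_mul_cancel₀ _ hs.ne']
    exact h2
  have hs : 0 < ‖v‖ := norm_pos_iff.2 hv
  have ht : 0 < ‖w‖ := norm_pos_iff.2 hw
  set s := ‖v‖ with hs'
  set t := ‖w‖ with ht'
  set A := α / s with hA
  set B := β / t with hB
  have hAs : A * s = α := div_mul_cancel₀ _ hs.ne'
  have hBt : B * t = β := div_mul_cancel₀ _ ht.ne'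
  have hA0 : 0 ≤ A := div_nonneg hα hs.le
  have hB0 : 0 ≤ B := div_nonneg hβ ht.le
  have hAL : A ≤ L := by rw [hA, div_le_iff₀ hs]; exact h2
  have hBL : B ≤ L := by rw [hB, div_le_iff₀ ht]; exact h3
  have hκ : inner ℝ v w ≤ s * t := real_inner_le_norm v w
  have e1 : (A * s - B * t) ^ 2 ≤ (L * (s - t)) ^ 2 := by
    rw [hAs, hBt]
    apply sq_le_sq.2
    rw [abs_mul, abs_of_nonneg hL]
    exact h1
  have e2 : ‖A • v - B • w‖ ^ 2 = A ^ 2 * s ^ 2 - 2 * (A * B * inner ℝ v w) + B ^ 2 * t ^ 2 := by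
    rw [norm_sub_sq_real, norm_smul, norm_smul, Real.norm_eq_abs, Real.norm_eq_abs,
      abs_of_nonneg hA0, abs_of_nonneg hB0, real_inner_smul_left, real_inner_smul_right]
    ring
  have e3 : ‖v - w‖ ^ 2 = s ^ 2 - 2 * inner ℝ v w + t ^ 2 := norm_sub_sq_real v w
  have e4 : A * B ≤ L * L := mul_le_mul hAL hBL hB0 hL
  have e5 : ‖A • v - B • w‖ ^ 2 ≤ (L * ‖v - w‖) ^ 2 := by
    rw [e2, mul_pow, e3]
    nlinarith [mul_nonneg (sub_nonneg.2 e4) (sub_nonneg.2 hκ)]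
  exact le_of_sq_le_sq₀ e5 (by positivity)

/-- the radial function -/
noncomputable def ff (r lam t : ℝ) : ℝ := max t (min (lam * t) (2 * r))

/-- the cut-off function -/
noncomputable def et (r t : ℝ) : ℝ := max 0 (min 1 ((4 * r - t) / (2 * r)))

/-- translation near the origin -/
noncomputable def TT (r : ℝ) (y u : V) : V := u - et r ‖u‖ • y

/-- dilation near the origin -/
noncomputable def DD (r lam : ℝ) (v : V) : V := (ff r lam ‖v‖ / ‖v‖) • v

/-- dilation with centre `y` near the origin, identity far away -/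
noncomputable def PP (r lam : ℝ) (y u : V) : V := DD r lam (TT r y u)

theorem le_ff (r lam t : ℝ) : t ≤ ff r lam t := le_max_left _ _

theorem ff_le {r lam t : ℝ} (hl : 1 ≤ lam) (ht : 0 ≤ t) : ff r lam t ≤ lam * t :=
  max_le (by nlinarith) (min_le_left _ _)

theorem ff_lip {r lam : ℝ} (hl : 1 ≤ lam) (s t : ℝ) :
    |ff r lam s - ff r lam t| ≤ lam * |s - t| := by
  refine (abs_max_sub_max_le_max _ _ _ _).trans (max_le ?_ ?_)
  · have := abs_nonneg (s - t)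
    nlinarith
  · refine (abs_min_sub_min_le_max _ _ _ _).trans (max_le ?_ ?_)
    · rw [← mul_sub, abs_mul, abs_of_nonneg (by linarith : (0:ℝ) ≤ lam)]
    · rw [sub_self, abs_zero]
      have := abs_nonneg (s - t)
      nlinarith

theorem ff_eq {r lam t : ℝ} (h : 2 * r ≤ lam * t) : ff r lam t = max t (2 * r) := by
  unfold ff
  rw [min_eq_right h]

theorem ff_lip2 {r lam s t : ℝ} (hs : 2 * r ≤ lam * s) (ht : 2 * r ≤ lam * t) :
    |ff r lam s - ff r lam t| ≤ |s - t| := by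
  rw [ff_eq hs, ff_eq ht]
  refine (abs_max_sub_max_le_max _ _ _ _).trans (max_le le_rfl ?_)
  rw [sub_self, abs_zero]
  exact abs_nonneg _

theorem norm_DD {r lam : ℝ} (hr : 0 < r) (v : V) : ‖DD r lam v‖ = ff r lam ‖v‖ := by
  unfold DD
  rcases eq_or_ne v 0 with rfl | hv
  · simp [ff, hr.le]
  · have hs : 0 < ‖v‖ := norm_pos_iff.2 hv
    rw [norm_smul, Real.norm_eq_abs,
      abs_of_nonneg (div_nonneg (hs.le.trans (le_ff r lam _)) hs.le), div_mul_cancel₀ _ hs.ne']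

theorem DD_lip {r lam : ℝ} (hl : 1 ≤ lam) (v w : V) :
    ‖DD r lam v - DD r lam w‖ ≤ lam * ‖v - w‖ :=
  rad v w _ _ lam ((norm_nonneg v).trans (le_ff _ _ _)) ((norm_nonneg w).trans (le_ff _ _ _))
    (by linarith) (ff_lip hl _ _) (ff_le hl (norm_nonneg _)) (ff_le hl (norm_nonneg _))

theorem DD_lip2 {r lam : ℝ} (hr : 0 < r) (hl : 10 ≤ lam) {v w : V} (hv : r ≤ ‖v‖) (hw : r ≤ ‖w‖) :
    ‖DD r lam v - DD r lam w‖ ≤ 2 * ‖v - w‖ := by
  have h1 : 2 * r ≤ lam * ‖v‖ := by nlinarith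
  have h2 : 2 * r ≤ lam * ‖w‖ := by nlinarith
  refine rad v w _ _ 2 ((norm_nonneg v).trans (le_ff _ _ _)) ((norm_nonneg w).trans (le_ff _ _ _))
    (by norm_num) ?_ ?_ ?_
  · have := ff_lip2 h1 h2
    have h3 := abs_nonneg (‖v‖ - ‖w‖)
    linarith
  · rw [ff_eq h1]
    exact max_le (by linarith [norm_nonneg v]) (by linarith)
  · rw [ff_eq h2]
    exact max_le (by linarith [norm_nonneg w]) (by linarith)

theorem et_nonneg (r t : ℝ) : 0 ≤ et r t := le_max_left _ _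

theorem et_le_one (r t : ℝ) : et r t ≤ 1 := max_le (by norm_num) (min_le_left _ _)

theorem et_lip {r : ℝ} (hr : 0 < r) (s t : ℝ) : |et r s - et r t| ≤ |s - t| / (2 * r) := by
  have h0 : 0 ≤ |s - t| / (2 * r) := by positivity
  refine (abs_max_sub_max_le_max _ _ _ _).trans (max_le ?_ ?_)
  · rw [sub_self, abs_zero]; exact h0
  · refine (abs_min_sub_min_le_max _ _ _ _).trans (max_le ?_ ?_)
    · rw [sub_self, abs_zero]; exact h0
    · rw [← sub_div, abs_div, abs_of_pos (by positivity : 0 < 2 * r)]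
      apply le_of_eq
      congr 1
      rw [show 4 * r - s - (4 * r - t) = -(s - t) by ring, abs_neg]

theorem et_one {r t : ℝ} (hr : 0 < r) (ht : t ≤ 2 * r) : et r t = 1 := by
  unfold et
  have h1 : 1 ≤ (4 * r - t) / (2 * r) := by
    rw [le_div_iff₀ (by positivity)]
    linarith
  rw [min_eq_left h1]
  exact max_eq_right (by norm_num)

theorem et_zero {r t : ℝ} (hr : 0 < r) (ht : 4 * r ≤ t) : et r t = 0 := by
  unfold et
  apply max_eq_left
  refine (min_le_right _ _).trans ?_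
  exact div_nonpos_of_nonpos_of_nonneg (by linarith) (by positivity)

theorem TT_lip {r : ℝ} (hr : 0 < r) {y : V} (hy : ‖y‖ ≤ r / 4) (u w : V) :
    ‖TT r y u - TT r y w‖ ≤ 2 * ‖u - w‖ := by
  have h1 : TT r y u - TT r y w = (u - w) - (et r ‖u‖ - et r ‖w‖) • y := by
    unfold TT
    rw [sub_smul]
    abel
  have h2 : |‖u‖ - ‖w‖| ≤ ‖u - w‖ := abs_norm_sub_norm_le u w
  have h3 := et_lip hr ‖u‖ ‖w‖
  rw [h1]
  refine (norm_sub_le _ _).trans ?_
  rw [norm_smul, Real.norm_eq_abs]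
  have h4 : |et r ‖u‖ - et r ‖w‖| * ‖y‖ ≤ (‖u - w‖ / (2 * r)) * (r / 4) := by
    refine mul_le_mul (h3.trans ?_) hy (norm_nonneg _) (by positivity)
    gcongr
  have h5 : (‖u - w‖ / (2 * r)) * (r / 4) = ‖u - w‖ / 8 := by
    field_simp
    ring
  rw [h5] at h4
  linarith [norm_nonneg (u - w)]

theorem TT_ge {r : ℝ} {y : V} (hy : ‖y‖ ≤ r / 4) (u : V) : ‖u‖ - r / 4 ≤ ‖TT r y u‖ := by
  unfold TT
  have h1 : ‖u‖ - ‖et r ‖u‖ • y‖ ≤ ‖u - et r ‖u‖ • y‖ := norm_sub_norm_le _ _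
  have h2 : ‖et r ‖u‖ • y‖ ≤ r / 4 := by
    rw [norm_smul, Real.norm_eq_abs, abs_of_nonneg (et_nonneg _ _)]
    nlinarith [et_le_one r ‖u‖, et_nonneg r ‖u‖, norm_nonneg y]
  linarith

theorem TT_le {r : ℝ} {y : V} (hy : ‖y‖ ≤ r / 4) (u : V) : ‖TT r y u‖ ≤ ‖u‖ + r / 4 := by
  unfold TT
  have h1 : ‖u - et r ‖u‖ • y‖ ≤ ‖u‖ + ‖et r ‖u‖ • y‖ := norm_sub_le _ _
  have h2 : ‖et r ‖u‖ • y‖ ≤ r / 4 := by
    rw [norm_smul, Real.norm_eq_abs, abs_of_nonneg (et_nonneg _ _)]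
    nlinarith [et_le_one r ‖u‖, et_nonneg r ‖u‖, norm_nonneg y]
  linarith

/-- the map `PP` is `lam`-Lipschitz at small distances -/
theorem PP_lip {r lam : ℝ} (hr : 0 < r) (hl : 10 ≤ lam) {y : V} (hy : ‖y‖ ≤ r / 4) {u w : V}
    (huw : ‖u - w‖ ≤ r / 4) : ‖PP r lam y u - PP r lam y w‖ ≤ lam * ‖u - w‖ := by
  have h0 : |‖u‖ - ‖w‖| ≤ ‖u - w‖ := abs_norm_sub_norm_le u w
  by_cases h : ‖u‖ ≤ 2 * r ∧ ‖w‖ ≤ 2 * r
  · have h1 : TT r y u - TT r y w = u - w := by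
      unfold TT
      rw [et_one hr h.1, et_one hr h.2]
      abel
    have h2 := DD_lip (r := r) (by linarith : 1 ≤ lam) (TT r y u) (TT r y w)
    rw [h1] at h2
    exact h2
  · have h1 : 2 * r - r / 4 ≤ ‖u‖ ∧ 2 * r - r / 4 ≤ ‖w‖ := by
      have h3 := abs_le.1 (h0.trans huw)
      rw [not_and_or, not_le, not_le] at h
      rcases h with h | h
      · constructor <;> linarith [h3.1, h3.2]
      · constructor <;> linarith [h3.1, h3.2]
    have h4 := TT_ge hy u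
    have h5 := TT_ge hy w
    have h6 := DD_lip2 hr hl (by linarith [h1.1] : r ≤ ‖TT r y u‖)
      (by linarith [h1.2] : r ≤ ‖TT r y w‖)
    have h7 := TT_lip hr hy u w
    have h8 := norm_nonneg (u - w)
    unfold PP
    nlinarith

theorem PP_far {r lam : ℝ} (hr : 0 < r) {y u : V} (hu : 4 * r ≤ ‖u‖) : PP r lam y u = u := by
  have h1 : TT r y u = u := by
    unfold TT
    rw [et_zero hr hu, zero_smul, sub_zero]
  unfold PP
  rw [h1]
  unfold DD
  have h2 : ff r lam ‖u‖ = ‖u‖ := max_eq_left ((min_le_right _ _).trans (by linarith))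
  rw [h2, div_self (by linarith), one_smul]

theorem PP_near {r lam : ℝ} (hr : 0 < r) (hl : 10 ≤ lam) {y u : V} (hy : ‖y‖ ≤ r / 4)
    (h : ‖PP r lam y u‖ < 2 * r) : PP r lam y u = lam • (u - y) := by
  unfold PP at h ⊢
  rw [norm_DD hr] at h
  set v := TT r y u with hv
  have h1 : lam * ‖v‖ < 2 * r := by
    by_contra hcon
    push Not at hcon
    rw [ff_eq hcon] at h
    exact absurd (le_max_right ‖v‖ (2 * r)) (not_le.2 h)
  have h2 : ff r lam ‖v‖ = lam * ‖v‖ := by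
    unfold ff
    rw [min_eq_left h1.le]
    exact max_eq_right (by nlinarith [norm_nonneg v])
  have h3 : ‖v‖ ≤ r / 4 := by nlinarith [norm_nonneg v]
  have h4 : ‖u‖ ≤ 2 * r := by
    have := TT_ge hy u
    rw [← hv] at this
    linarith
  have h5 : v = u - y := by
    rw [hv]
    unfold TT
    rw [et_one hr h4, one_smul]
  unfold DD
  rw [h2, ← h5]
  rcases eq_or_ne v 0 with h6 | h6
  · rw [h6, smul_zero, smul_zero]
  · rw [mul_div_assoc, div_self (norm_ne_zero_iff.2 h6), mul_one]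

theorem norm_PP_le {r lam : ℝ} (hr : 0 < r) {y u : V} (hy : ‖y‖ ≤ r / 4)
    (hu : ‖u‖ ≤ 5 * r) : ‖PP r lam y u‖ ≤ 6 * r := by
  unfold PP
  rw [norm_DD hr]
  unfold ff
  refine max_le ?_ ((min_le_right _ _).trans (by linarith))
  linarith [TT_le hy u]

theorem inner_PP {r lam : ℝ} {x y u : V} (hy : inner ℝ x y = 0) (hu : inner ℝ x u = 0) :
    inner ℝ x (PP r lam y u) = 0 := by
  unfold PP DD TT
  rw [real_inner_smul_right, inner_sub_right, real_inner_smul_right, hy, hu]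
  ring

/-- the gnomonic coordinate -/
noncomputable def uu (x p : V) : V := (inner ℝ x p)⁻¹ • p - x

/-- the surgery near `x` -/
noncomputable def Ph (r lam : ℝ) (x y p : V) : V :=
  (1 / ‖x + PP r lam y (uu x p)‖) • (x + PP r lam y (uu x p))

theorem inner_uu {x p : V} (hx : ‖x‖ = 1) (h : 0 < inner ℝ x p) : inner ℝ x (uu x p) = 0 := by
  unfold uu
  rw [inner_sub_right, real_inner_smul_right, inv_mul_cancel₀ h.ne', real_inner_self_eq_norm_sq, hx]
  norm_num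

theorem inner_eq {x p : V} (hx : ‖x‖ = 1) (hp : ‖p‖ = 1) :
    inner ℝ x p = 1 - ‖p - x‖ ^ 2 / 2 := by
  rw [norm_sub_sq_real, hx, hp, real_inner_comm]
  ring

theorem inner_ge {x p : V} {r : ℝ} (hx : ‖x‖ = 1) (hp : ‖p‖ = 1) (hr : 0 < r) (hr' : r ≤ 1 / 100)
    (h : ‖p - x‖ ≤ 5 * r) : 1 - r / 8 ≤ inner ℝ x p := by
  rw [inner_eq hx hp]
  have h1 : ‖p - x‖ ^ 2 ≤ (5 * r) ^ 2 := pow_le_pow_left₀ (norm_nonneg _) h 2
  nlinarith

/-- the chart is almost 1-Lipschitz -/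
theorem uu_lip {x p q : V} {r ρ : ℝ} (hx : ‖x‖ = 1) (hp : ‖p‖ = 1) (hq : ‖q‖ = 1) (hr : 0 < r)
    (hρ : r ≤ ρ) (hr' : ρ ≤ 1 / 100) (h : ‖p - x‖ ≤ 5 * r) (h' : ‖q - x‖ ≤ 5 * r) :
    ‖uu x p - uu x q‖ ≤ (1 + 20 * ρ) * ‖p - q‖ := by
  have hr1 : r ≤ 1 / 100 := hρ.trans hr'
  have ha := inner_ge hx hp hr hr1 h
  have ha' := inner_ge hx hq hr hr1 h'
  set a := inner ℝ x p with had
  set a' := inner ℝ x q with had'
  have ha0 : 0 < a := by linarith
  have ha0' : 0 < a' := by linarith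
  have h1 : uu x p - uu x q = a⁻¹ • (p - q) + (a⁻¹ - a'⁻¹) • q := by
    unfold uu
    rw [smul_sub, sub_smul]
    abel
  -- the difference of the heights
  have h2 : |a - a'| ≤ 5 * r * ‖p - q‖ := by
    have e1 : inner ℝ (p + q) (p - q) = (0 : ℝ) := by
      rw [inner_sub_right, inner_add_left, inner_add_left, real_inner_self_eq_norm_sq,
        real_inner_self_eq_norm_sq, hp, hq, real_inner_comm]
      ring
    have e2 : a - a' = inner ℝ (x - (1 / 2 : ℝ) • (p + q)) (p - q) := by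
      rw [inner_sub_left, real_inner_smul_left, e1, inner_sub_right]
      ring
    rw [e2]
    refine (abs_real_inner_le_norm _ _).trans ?_
    refine mul_le_mul_of_nonneg_right ?_ (norm_nonneg _)
    have e3 : x - (1 / 2 : ℝ) • (p + q) = (1 / 2 : ℝ) • ((x - p) + (x - q)) := by
      module
    rw [e3, norm_smul, Real.norm_eq_abs, abs_of_pos (by norm_num : (0:ℝ) < 1 / 2)]
    have e4 := norm_add_le (x - p) (x - q)
    rw [norm_sub_rev x p, norm_sub_rev x q] at e4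
    linarith
  have h3 : a⁻¹ ≤ 1 + r / 4 := by
    rw [inv_le_comm₀ ha0 (by positivity)]
    refine le_trans ?_ ha
    rw [inv_le_iff_one_le_mul₀ (by positivity)]
    nlinarith
  have h3' : a'⁻¹ ≤ 1 + r / 4 := by
    rw [inv_le_comm₀ ha0' (by positivity)]
    refine le_trans ?_ ha'
    rw [inv_le_iff_one_le_mul₀ (by positivity)]
    nlinarith
  have h4 : |a⁻¹ - a'⁻¹| ≤ 6 * r * ‖p - q‖ := by
    have e1 : a⁻¹ - a'⁻¹ = a⁻¹ * a'⁻¹ * (a' - a) := by
      field_simp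
    have e2 : 0 ≤ a⁻¹ := by positivity
    have e3 : 0 ≤ a'⁻¹ := by positivity
    rw [e1, abs_mul, abs_of_nonneg (mul_nonneg e2 e3), abs_sub_comm]
    have e4 : a⁻¹ * a'⁻¹ ≤ 6 / 5 := by
      have : a⁻¹ * a'⁻¹ ≤ (1 + r / 4) * (1 + r / 4) := mul_le_mul h3 h3' e3 (by positivity)
      nlinarith
    have e5 : 0 ≤ 5 * r * ‖p - q‖ := by positivity
    calc a⁻¹ * a'⁻¹ * |a - a'| ≤ (6 / 5) * (5 * r * ‖p - q‖) :=
          mul_le_mul e4 h2 (abs_nonneg _) (by norm_num)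
      _ = 6 * r * ‖p - q‖ := by ring
  rw [h1]
  refine (norm_add_le _ _).trans ?_
  rw [norm_smul, norm_smul, Real.norm_eq_abs, Real.norm_eq_abs, hq, mul_one,
    abs_of_nonneg (by positivity : 0 ≤ a⁻¹)]
  have h5 := norm_nonneg (p - q)
  nlinarith [mul_le_mul_of_nonneg_right h3 h5, mul_le_mul_of_nonneg_right hρ h5]

theorem uu_self {x : V} (hx : ‖x‖ = 1) : uu x x = 0 := by
  unfold uu
  rw [real_inner_self_eq_norm_sq, hx]
  simp

theorem uu_ge {x p : V} (hx : ‖x‖ = 1) (hp : ‖p‖ = 1) (h : 0 < inner ℝ x p) :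
    ‖p - x‖ ≤ ‖uu x p‖ := by
  set a := inner ℝ x p with had
  have h1 : ‖uu x p‖ ^ 2 = (a⁻¹) ^ 2 - 1 := by
    unfold uu
    rw [norm_sub_sq_real, norm_smul, hp, hx, real_inner_smul_left, real_inner_comm x p, ← had,
      Real.norm_eq_abs, abs_of_pos (by positivity)]
    field_simp
    ring
  have h2 : ‖p - x‖ ^ 2 = 2 - 2 * a := by
    rw [had, inner_eq hx hp]
    ring
  have h3 : a ≤ 1 := by
    have := sq_nonneg ‖p - x‖
    linarith
  have h4 : ‖p - x‖ ^ 2 ≤ ‖uu x p‖ ^ 2 := by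
    rw [h1, h2]
    have e1 : 1 ≤ a⁻¹ := (one_le_inv₀ h).2 h3
    have e2 : a * a⁻¹ = 1 := mul_inv_cancel₀ h.ne'
    nlinarith [mul_nonneg (sub_nonneg.2 e1) (sub_nonneg.2 h3), mul_nonneg (sub_nonneg.2 e1) (sub_nonneg.2 e1)]
  exact le_of_sq_le_sq₀ h4 (norm_nonneg _)

theorem one_le_norm {x w : V} (hx : ‖x‖ = 1) (h : inner ℝ x w = 0) : 1 ≤ ‖x + w‖ := by
  have h1 : ‖x + w‖ ^ 2 = 1 + ‖w‖ ^ 2 := by
    rw [norm_add_sq_real, h, hx]
    ring
  have h2 : (1 : ℝ) ^ 2 ≤ ‖x + w‖ ^ 2 := by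
    rw [h1]
    nlinarith [sq_nonneg ‖w‖]
  exact le_of_sq_le_sq₀ h2 (norm_nonneg _)

/-- normalisation is 1-Lipschitz outside the unit ball -/
theorem norm_lip {v w : V} (hv : 1 ≤ ‖v‖) (hw : 1 ≤ ‖w‖) :
    ‖(1 / ‖v‖) • v - (1 / ‖w‖) • w‖ ≤ ‖v - w‖ := by
  have := rad v w 1 1 1 (by norm_num) (by norm_num) (by norm_num)
    (by rw [sub_self, abs_zero]; positivity) (by linarith) (by linarith)
  linarith

theorem norm_Ph {r lam : ℝ} {x y p : V} (hx : ‖x‖ = 1) (hy : inner ℝ x y = 0)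
    (h : 0 < inner ℝ x p) : ‖Ph r lam x y p‖ = 1 := by
  have h1 := one_le_norm hx (inner_PP (r := r) (lam := lam) hy (inner_uu hx h))
  unfold Ph
  rw [norm_smul, Real.norm_eq_abs, abs_of_pos (by positivity)]
  field_simp

theorem Ph_lip {x y p q : V} {r ρ lam : ℝ} (hx : ‖x‖ = 1) (hp : ‖p‖ = 1) (hq : ‖q‖ = 1)
    (hr : 0 < r) (hρ : r ≤ ρ) (hr' : ρ ≤ 1 / 100) (hl : 10 ≤ lam) (hy : ‖y‖ ≤ r / 4)
    (hxy : inner ℝ x y = 0) (h : ‖p - x‖ ≤ 5 * r) (h' : ‖q - x‖ ≤ 5 * r)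
    (hpq : ‖p - q‖ ≤ r / 8) :
    ‖Ph r lam x y p - Ph r lam x y q‖ ≤ lam * ((1 + 20 * ρ) * ‖p - q‖) := by
  have hr1 : r ≤ 1 / 100 := hρ.trans hr'
  have ha : 0 < inner ℝ x p := by linarith [inner_ge hx hp hr hr1 h]
  have ha' : 0 < inner ℝ x q := by linarith [inner_ge hx hq hr hr1 h']
  have h1 := uu_lip hx hp hq hr hρ hr' h h'
  have h2 : ‖uu x p - uu x q‖ ≤ r / 4 := by
    refine h1.trans ?_
    have := norm_nonneg (p - q)
    nlinarith
  have h3 := PP_lip hr hl hy h2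
  have h4 := norm_lip (one_le_norm hx (inner_PP (r := r) (lam := lam) hxy (inner_uu hx ha)))
    (one_le_norm hx (inner_PP (r := r) (lam := lam) hxy (inner_uu hx ha')))
  rw [add_sub_add_left_eq_sub] at h4
  refine h4.trans (h3.trans ?_)
  exact mul_le_mul_of_nonneg_left h1 (by linarith)

theorem Ph_far {x y p : V} {r lam : ℝ} (hx : ‖x‖ = 1) (hp : ‖p‖ = 1) (hr : 0 < r)
    (ha : 0 < inner ℝ x p) (h : 4 * r ≤ ‖p - x‖) : Ph r lam x y p = p := by
  have h1 : PP r lam y (uu x p) = uu x p := PP_far hr (h.trans (uu_ge hx hp ha))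
  have h2 : x + uu x p = (inner ℝ x p)⁻¹ • p := by
    unfold uu
    abel
  unfold Ph
  rw [h1, h2, norm_smul, hp, Real.norm_eq_abs, abs_of_pos (by positivity), mul_one, smul_smul,
    one_div, inv_inv, mul_inv_cancel₀ ha.ne', one_smul]

theorem Ph_near {x y p : V} {r lam : ℝ} (hx : ‖x‖ = 1) (hp : ‖p‖ = 1) (hr : 0 < r)
    (hr1 : r ≤ 1 / 100) (hy : ‖y‖ ≤ r / 4) (hxy : inner ℝ x y = 0) (h : ‖p - x‖ ≤ 4 * r) :
    ‖Ph r lam x y p - x‖ ≤ 6 * r := by
  have h5 : ‖p - x‖ ≤ 5 * r := by linarith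
  have ha : 0 < inner ℝ x p := by linarith [inner_ge hx hp hr hr1 h5]
  have h1 := uu_lip hx hp hx hr (le_refl r) hr1 h5 (by rw [sub_self, norm_zero]; positivity)
  rw [uu_self hx, sub_zero] at h1
  have h2 : ‖uu x p‖ ≤ 5 * r := by nlinarith [norm_nonneg (p - x)]
  have h3 := norm_PP_le (lam := lam) hr hy h2
  have h4 := norm_lip (one_le_norm hx (inner_PP (r := r) (lam := lam) hxy (inner_uu hx ha)))
    (le_of_eq hx.symm)
  rw [hx, one_div_one, one_smul, add_sub_cancel_left] at h4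
  exact h4.trans h3

/-- the preimage of a small cap -/
theorem Ph_hole {x y p : V} {r lam : ℝ} (hx : ‖x‖ = 1) (hr : 0 < r)
    (hr1 : r ≤ 1 / 100) (hl : 10 ≤ lam) (hy : ‖y‖ ≤ r / 4) (hxy : inner ℝ x y = 0)
    (ha : 0 < inner ℝ x p) (h : ‖Ph r lam x y p - x‖ < r) :
    ∃ t : ℝ, 0 < t ∧ lam • p + inner ℝ x p • ((1 - lam) • x - lam • y) = t • Ph r lam x y p := by
  set w := PP r lam y (uu x p) with hw
  have hxw : inner ℝ x w = 0 := inner_PP hxy (inner_uu hx ha)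
  have h1 := one_le_norm hx hxw
  have hPh : Ph r lam x y p = (1 / ‖x + w‖) • (x + w) := rfl
  have hn : ‖Ph r lam x y p‖ = 1 := norm_Ph hx hxy ha
  have h2 : inner ℝ x (Ph r lam x y p) = 1 / ‖x + w‖ := by
    rw [hPh, real_inner_smul_right, inner_add_right, hxw, real_inner_self_eq_norm_sq, hx]
    ring
  have h3 := inner_eq hx hn
  rw [h2] at h3
  have h4 : ‖Ph r lam x y p - x‖ ^ 2 < r ^ 2 := by
    have := norm_nonneg (Ph r lam x y p - x)
    nlinarith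
  have h5 : ‖x + w‖ ^ 2 = 1 + ‖w‖ ^ 2 := by
    rw [norm_add_sq_real, hxw, hx]
    ring
  have h6 : ‖w‖ < 2 * r := by
    by_contra hcon
    push Not at hcon
    have h7 : (2 * r) ^ 2 ≤ ‖w‖ ^ 2 := pow_le_pow_left₀ (by positivity) hcon 2
    set c := 1 / ‖x + w‖ with hc
    have h8 : c ^ 2 * (1 + ‖w‖ ^ 2) = 1 := by
      rw [← h5, hc]
      field_simp
    have h9 : 1 - r ^ 2 / 2 < c := by linarith
    have h10 : 0 < 1 - r ^ 2 / 2 := by nlinarith
    have h11 : (1 - r ^ 2 / 2) ^ 2 < c ^ 2 := by nlinarith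
    have h12 : (1 - r ^ 2 / 2) ^ 2 * (1 + 4 * r ^ 2) < 1 := by
      have e1 : (1 - r ^ 2 / 2) ^ 2 * (1 + 4 * r ^ 2) < c ^ 2 * (1 + 4 * r ^ 2) :=
        mul_lt_mul_of_pos_right h11 (by positivity)
      have e2 : c ^ 2 * (1 + 4 * r ^ 2) ≤ c ^ 2 * (1 + ‖w‖ ^ 2) :=
        mul_le_mul_of_nonneg_left (by linarith) (by positivity)
      linarith
    have h13 : r ^ 2 ≤ 1 / 10000 := by nlinarith
    have h14 : 0 < r ^ 2 := by positivity
    nlinarith [mul_pos h14 h14, mul_nonneg h14.le (sub_nonneg.2 h13)]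
  have h7 : w = lam • (uu x p - y) := PP_near hr hl hy h6
  refine ⟨inner ℝ x p * ‖x + w‖, by positivity, ?_⟩
  rw [hPh, smul_smul]
  have h8 : inner ℝ x p * ‖x + w‖ * (1 / ‖x + w‖) = inner ℝ x p := by
    field_simp
  rw [h8, h7]
  unfold uu
  have h9 : inner ℝ x p • ((inner ℝ x p)⁻¹ • p) = p := by
    rw [smul_smul, mul_inv_cancel₀ ha.ne', one_smul]
  have h10 : inner ℝ x p • (x + lam • ((inner ℝ x p)⁻¹ • p - x - y)) =
      lam • (inner ℝ x p • ((inner ℝ x p)⁻¹ • p)) + inner ℝ x p • ((1 - lam) • x - lam • y) := by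
    module
  rw [h10, h9]

end Pool.Agent.H44.RB
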