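import Pool.Agent.H3.RB.Stm
import Pool.Agent.H44.RB.Vec

/-! Part ADT of project RB: the surgery. -/

set_option autoImplicit false

namespace Pool.Agent.H44.RB

open Pool.Agent.H3.RB

/-- the sign of a Boolean -/
def sg (s : Bool) : ℝ := if s then 1 else -1

theorem sg_mul_self (s : Bool) : sg s * sg s = 1 := by cases s <;> norm_num [sg]

theorem abs_sg (s : Bool) : |sg s| = 1 := by cases s <;> norm_num [sg]

theorem sg_not (s : Bool) : sg (!s) = -sg s := by cases s <;> norm_num [sg]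

section

variable {V : Type} [NormedAddCommGroup V] [InnerProductSpace ℝ V]

theorem norm_sg (s : Bool) (v : V) : ‖sg s • v‖ = ‖v‖ := by
  rw [norm_smul, Real.norm_eq_abs, abs_sg, one_mul]

theorem sg_sg (s : Bool) (v : V) : sg s • sg s • v = v := by
  rw [smul_smul, sg_mul_self, one_smul]

theorem norm_sub_sg (s : Bool) (p v : V) : ‖p - sg s • v‖ = ‖sg s • p - v‖ := by
  rw [← norm_sg s (p - sg s • v), smul_sub, sg_sg]

/-- the surgery near `± x` -/
noncomputable def Fs (s : Bool) (r lam : ℝ) (x y p : V) : V := sg s • Ph r lam x y (sg s • p)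

theorem Fs_neg (s : Bool) (r lam : ℝ) (x y p : V) : Fs (!s) r lam x y (-p) = -Fs s r lam x y p := by
  unfold Fs
  rw [sg_not, neg_smul_neg, neg_smul]

variable {s : Bool} {x y p q : V} {r ρ lam : ℝ} (hx : ‖x‖ = 1) (hp : ‖p‖ = 1) (hr : 0 < r)
  (hr1 : r ≤ 1 / 100) (hl : 10 ≤ lam) (hy : ‖y‖ ≤ r / 4) (hxy : inner ℝ x y = 0)
include hx hp hr hr1

theorem Fs_pos (h : ‖p - sg s • x‖ < 5 * r) : 0 < inner ℝ x (sg s • p) := by
  rw [norm_sub_sg] at h
  linarith [inner_ge hx ((norm_sg s p).trans hp) hr hr1 h.le]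

theorem Fs_far (h : ‖p - sg s • x‖ < 5 * r) (h' : 4 * r ≤ ‖p - sg s • x‖) :
    Fs s r lam x y p = p := by
  have h1 := Fs_pos hx hp hr hr1 h
  rw [norm_sub_sg] at h'
  unfold Fs
  rw [Ph_far hx ((norm_sg s p).trans hp) hr h1 h', sg_sg]

include hxy in
theorem norm_Fs (h : ‖p - sg s • x‖ < 5 * r) : ‖Fs s r lam x y p‖ = 1 := by
  unfold Fs
  rw [norm_sg]
  exact norm_Ph hx hxy (Fs_pos hx hp hr hr1 h)

include hxy hy in
theorem Fs_near (h : ‖p - sg s • x‖ ≤ 4 * r) : ‖Fs s r lam x y p - sg s • x‖ ≤ 6 * r := by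
  rw [norm_sub_sg] at h ⊢
  unfold Fs
  rw [sg_sg]
  exact Ph_near hx ((norm_sg s p).trans hp) hr hr1 hy hxy h

include hxy hy hl in
theorem Fs_lip (hq : ‖q‖ = 1) (hρ : r ≤ ρ) (hr' : ρ ≤ 1 / 100) (h : ‖p - sg s • x‖ < 5 * r)
    (h' : ‖q - sg s • x‖ < 5 * r) (hpq : ‖p - q‖ ≤ r / 8) :
    ‖Fs s r lam x y p - Fs s r lam x y q‖ ≤ lam * ((1 + 20 * ρ) * ‖p - q‖) := by
  rw [norm_sub_sg] at h h'
  unfold Fs
  rw [← smul_sub, norm_sg]
  have h1 : ‖sg s • p - sg s • q‖ = ‖p - q‖ := by rw [← smul_sub, norm_sg]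
  have := Ph_lip hx ((norm_sg s p).trans hp) ((norm_sg s q).trans hq) hr hρ hr' hl hy hxy h.le
    h'.le (by rw [h1]; exact hpq)
  rwa [h1] at this

include hxy hy hl in
theorem Fs_hole (h : ‖p - sg s • x‖ < 5 * r) (h' : ‖Fs s r lam x y p - sg s • x‖ < r) :
    ∃ t : ℝ, 0 < t ∧ lam • p + inner ℝ x p • ((1 - lam) • x - lam • y) =
      t • Fs s r lam x y p := by
  have h1 := Fs_pos hx hp hr hr1 h
  rw [norm_sub_sg] at h'
  unfold Fs at h'
  rw [sg_sg] at h'
  obtain ⟨t, ht, h2⟩ := Ph_hole hx hr hr1 hl hy hxy h1 h'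
  refine ⟨t, ht, ?_⟩
  unfold Fs
  rw [smul_comm t (sg s), ← h2, smul_add, smul_comm (sg s) lam, sg_sg, real_inner_smul_right,
    smul_smul, ← mul_assoc, sg_mul_self, one_mul]

end

theorem adt : S_ADT := by
  intro d b ρ m x r H hb hρ hρ' hH lam y hl hxy hy
  classical
  have hr : ∀ i, 0 < r i := fun i => hb.trans_le (hH.rad i).1
  have hrρ : ∀ i, r i ≤ ρ := fun i => (hH.rad i).2
  have hr1 : ∀ i, r i ≤ 1 / 100 := fun i => (hrρ i).trans hρ'
  have hx : ∀ i, ‖(x i : EE d)‖ = 1 := fun i => by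
    have := (x i).2
    rwa [mem_sphere_zero_iff_norm] at this
  have hn : ∀ p : Sph d, ‖(p : EE d)‖ = 1 := fun p => by
    have := p.2
    rwa [mem_sphere_zero_iff_norm] at this
  -- separation of the signed centres
  have hsep : ∀ a c : Fin m × Bool, a ≠ c →
      50 * (r a.1 + r c.1) < ‖sg a.2 • (x a.1 : EE d) - sg c.2 • (x c.1 : EE d)‖ := by
    rintro ⟨i, s⟩ ⟨j, t⟩ hac
    by_cases hij : i = j
    · subst hij
      have hst : s ≠ t := fun h => hac (by rw [h])
      have h1 : sg t = -sg s := by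
        cases s <;> cases t <;> simp_all [sg]
      have h2 : sg s • (x i : EE d) - sg t • (x i : EE d) = (2 : ℝ) • sg s • (x i : EE d) := by
        rw [h1]
        module
      show 50 * (r i + r i) < ‖sg s • (x i : EE d) - sg t • (x i : EE d)‖
      rw [h2, norm_smul, norm_sg, hx]
      have := hr1 i
      norm_num
      linarith
    · have h1 := hH.sep i j hij
      show 50 * (r i + r j) < ‖sg s • (x i : EE d) - sg t • (x j : EE d)‖
      cases s <;> cases t
      · have : sg false • (x i : EE d) - sg false • (x j : EE d) = -((x i : EE d) - x j) := by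
          simp only [sg, Bool.false_eq_true, if_false]
          module
        rw [this, norm_neg]
        exact h1.1
      · have : sg false • (x i : EE d) - sg true • (x j : EE d) = -((x i : EE d) + x j) := by
          simp only [sg, Bool.false_eq_true, if_false, if_true]
          module
        rw [this, norm_neg]
        exact h1.2
      · have : sg true • (x i : EE d) - sg false • (x j : EE d) = ((x i : EE d) + x j) := by
          simp only [sg, Bool.false_eq_true, if_false, if_true]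
          module
        rw [this]
        exact h1.2
      · have : sg true • (x i : EE d) - sg true • (x j : EE d) = ((x i : EE d) - x j) := by
          simp only [sg, if_true]
          module
        rw [this]
        exact h1.1
  have huniq : ∀ (a c : Fin m × Bool) (p q : EE d), ‖p - sg a.2 • (x a.1 : EE d)‖ < 7 * r a.1 →
      ‖q - sg c.2 • (x c.1 : EE d)‖ < 7 * r c.1 → p = q → a = c := by
    intro a c p q h1 h2 h3
    by_contra hac
    have h4 := hsep a c hac
    subst h3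
    have h5 : ‖sg a.2 • (x a.1 : EE d) - sg c.2 • (x c.1 : EE d)‖ ≤
        ‖p - sg a.2 • (x a.1 : EE d)‖ + ‖p - sg c.2 • (x c.1 : EE d)‖ := by
      have : sg a.2 • (x a.1 : EE d) - sg c.2 • (x c.1 : EE d) =
        (p - sg c.2 • (x c.1 : EE d)) - (p - sg a.2 • (x a.1 : EE d)) := by abel
      rw [this]
      refine (norm_sub_le _ _).trans ?_
      linarith
    have := hr a.1
    have := hr c.1
    linarith
  -- the map
  let F : Fin m × Bool → EE d → EE d := fun a p => Fs a.2 (r a.1) lam (x a.1 : EE d) (y a.1) p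
  let G : EE d → EE d := fun p =>
    if h : ∃ a : Fin m × Bool, ‖p - sg a.2 • (x a.1 : EE d)‖ < 4 * r a.1 then F h.choose p else p
  have hG : ∀ (a : Fin m × Bool) (p : EE d), ‖p‖ = 1 →
      ‖p - sg a.2 • (x a.1 : EE d)‖ < 5 * r a.1 → G p = F a p := by
    intro a p hp h
    by_cases h1 : ∃ a : Fin m × Bool, ‖p - sg a.2 • (x a.1 : EE d)‖ < 4 * r a.1
    · have h2 : G p = F h1.choose p := dif_pos h1
      have h3 := h1.choose_spec
      have h4 : h1.choose = a := huniq _ _ p p (by linarith [hr h1.choose.1])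
        (by linarith [hr a.1]) rfl
      rw [h2, h4]
    · have h2 : G p = p := dif_neg h1
      rw [h2]
      push Not at h1
      exact (Fs_far (hx a.1) hp (hr a.1) (hr1 a.1) h (h1 a)).symm
  have hG0 : ∀ p : EE d, (¬ ∃ a : Fin m × Bool, ‖p - sg a.2 • (x a.1 : EE d)‖ < 4 * r a.1) →
      G p = p := fun p h => dif_neg h
  have hGn : ∀ p : EE d, ‖p‖ = 1 → ‖G p‖ = 1 := by
    intro p hp
    by_cases h1 : ∃ a : Fin m × Bool, ‖p - sg a.2 • (x a.1 : EE d)‖ < 4 * r a.1
    · obtain ⟨a, ha⟩ := h1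
      have h5 : ‖p - sg a.2 • (x a.1 : EE d)‖ < 5 * r a.1 := by linarith [hr a.1]
      rw [hG a p hp h5]
      exact norm_Fs (hx a.1) hp (hr a.1) (hr1 a.1) (hxy a.1) h5
    · rw [hG0 p h1, hp]
  have hneg : ∀ (a : Fin m × Bool) (p : EE d),
      ‖-p - sg (!a.2) • (x a.1 : EE d)‖ = ‖p - sg a.2 • (x a.1 : EE d)‖ := by
    intro a p
    rw [sg_not, ← norm_neg]
    congr 1
    module
  have hGodd : ∀ p : EE d, ‖p‖ = 1 → G (-p) = -G p := by
    intro p hp
    by_cases h1 : ∃ a : Fin m × Bool, ‖p - sg a.2 • (x a.1 : EE d)‖ < 4 * r a.1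
    · obtain ⟨a, ha⟩ := h1
      have h5 : ‖p - sg a.2 • (x a.1 : EE d)‖ < 5 * r a.1 := by linarith [hr a.1]
      rw [hG a p hp h5, hG (a.1, !a.2) (-p) ((norm_neg p).trans hp) (by rw [hneg]; exact h5)]
      exact Fs_neg a.2 _ _ _ _ _
    · rw [hG0 p h1, hG0 (-p)]
      rintro ⟨a, ha⟩
      apply h1
      refine ⟨(a.1, !a.2), ?_⟩
      have := hneg (a.1, !a.2) p
      rw [Bool.not_not] at this
      rw [← this]
      exact ha
  have hGlip : ∀ p q : EE d, ‖p‖ = 1 → ‖q‖ = 1 → ‖p - q‖ < b / ((1 + 20 * ρ) * lam) →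
      ‖G p - G q‖ < b := by
    have key : ∀ (a : Fin m × Bool) (p q : EE d), ‖p‖ = 1 → ‖q‖ = 1 →
        ‖p - q‖ < b / ((1 + 20 * ρ) * lam) → ‖p - sg a.2 • (x a.1 : EE d)‖ < 4 * r a.1 →
        ‖G p - G q‖ < b := by
      intro a p q hp hq hpq ha
      have hc : 0 < (1 + 20 * ρ) * lam := by positivity
      have h1 : ‖p - q‖ * ((1 + 20 * ρ) * lam) < b := (lt_div_iff₀ hc).1 hpq
      have h2 : ‖p - q‖ ≤ r a.1 / 8 := by
        have e1 : ‖p - q‖ * 10 ≤ ‖p - q‖ * ((1 + 20 * ρ) * lam) := by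
          refine mul_le_mul_of_nonneg_left ?_ (norm_nonneg _)
          nlinarith
        have e2 := (hH.rad a.1).1
        have e3 := hr a.1
        linarith
      have h3 : ‖p - sg a.2 • (x a.1 : EE d)‖ < 5 * r a.1 := by linarith [hr a.1]
      have h4 : ‖q - sg a.2 • (x a.1 : EE d)‖ < 5 * r a.1 := by
        have e1 : q - sg a.2 • (x a.1 : EE d) = (p - sg a.2 • (x a.1 : EE d)) - (p - q) := by abel
        rw [e1]
        have e2 := norm_sub_le (p - sg a.2 • (x a.1 : EE d)) (p - q)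
        linarith [hr a.1]
      rw [hG a p hp h3, hG a q hq h4]
      have h5 := Fs_lip (hx a.1) hp (hr a.1) (hr1 a.1) hl (hy a.1) (hxy a.1) hq (hrρ a.1) hρ' h3
        h4 h2
      refine lt_of_le_of_lt h5 ?_
      linarith
    intro p q hp hq hpq
    by_cases h1 : ∃ a : Fin m × Bool, ‖p - sg a.2 • (x a.1 : EE d)‖ < 4 * r a.1
    · obtain ⟨a, ha⟩ := h1
      exact key a p q hp hq hpq ha
    · by_cases h2 : ∃ a : Fin m × Bool, ‖q - sg a.2 • (x a.1 : EE d)‖ < 4 * r a.1
      · obtain ⟨a, ha⟩ := h2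
        rw [norm_sub_rev]
        exact key a q p hq hp (by rwa [norm_sub_rev]) ha
      · rw [hG0 p h1, hG0 q h2]
        have hc : 1 ≤ (1 + 20 * ρ) * lam := by nlinarith
        exact hpq.trans_le (div_le_self hb.le hc)
  -- the preimage of the holes
  have hhole : ∀ p : EE d, ‖p‖ = 1 → ∀ i : Fin m,
      (‖G p - (x i : EE d)‖ < r i ∨ ‖G p + (x i : EE d)‖ < r i) →
      ∃ t : ℝ, 0 < t ∧ AA (x i : EE d) lam (y i) p = t • G p := by
    intro p hp i hi
    obtain ⟨s, hs⟩ : ∃ s : Bool, ‖G p - sg s • (x i : EE d)‖ < r i := by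
      rcases hi with h | h
      · exact ⟨true, by simpa [sg] using h⟩
      · refine ⟨false, ?_⟩
        have : G p - sg false • (x i : EE d) = G p + x i := by
          simp only [sg, Bool.false_eq_true, if_false]
          module
        rw [this]
        exact h
    have h1 : ∃ a : Fin m × Bool, ‖p - sg a.2 • (x a.1 : EE d)‖ < 4 * r a.1 := by
      by_contra hcon
      have h2 := hG0 p hcon
      rw [h2] at hs
      exact hcon ⟨(i, s), by
        show ‖p - sg s • (x i : EE d)‖ < 4 * r i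
        linarith [hr i]⟩
    obtain ⟨a, ha⟩ := h1
    have h3 : ‖p - sg a.2 • (x a.1 : EE d)‖ < 5 * r a.1 := by linarith [hr a.1]
    have h4 := hG a p hp h3
    have h5 : ‖G p - sg a.2 • (x a.1 : EE d)‖ ≤ 6 * r a.1 := by
      rw [h4]
      exact Fs_near (hx a.1) hp (hr a.1) (hr1 a.1) (hy a.1) (hxy a.1) ha.le
    have h6 : a = (i, s) := huniq a (i, s) (G p) (G p) (by linarith [hr a.1])
      (by
        show ‖G p - sg s • (x i : EE d)‖ < 7 * r i
        linarith [hr i]) rfl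
    subst h6
    rw [h4] at hs ⊢
    exact Fs_hole (hx i) hp (hr i) (hr1 i) hl (hy i) (hxy i) h3 hs
  -- the colouring
  obtain ⟨c, hc⟩ := hH.col
  let φ : Sph d → Sph d := fun p => ⟨G p, by rw [mem_sphere_zero_iff_norm]; exact hGn p (hn p)⟩
  have hφ : ∀ p : Sph d, p ∈ (⋃ i, KK (x i) lam (y i) (H ∩ DC (x i) (r i)))ᶜ → φ p ∈ Hᶜ := by
    intro p hp hcon
    apply hp
    obtain ⟨i, hi⟩ := hH.cov (φ p) hcon
    obtain ⟨t, ht, h1⟩ := hhole p (hn p) i hi
    exact Set.mem_iUnion.2 ⟨i, φ p, ⟨hcon, hi⟩, t, ht, h1⟩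
  refine ⟨fun p => c (φ p), fun p hp q hq hpq => ?_⟩
  refine hc (φ p) (hφ p hp) (φ q) (hφ q hq) ?_
  have h1 : ((φ p : Sph d) : EE d) + (φ q : Sph d) = G p - G (-(q : EE d)) := by
    rw [hGodd _ (hn q), sub_neg_eq_add]
  rw [h1]
  refine hGlip _ _ (hn p) ((norm_neg _).trans (hn q)) ?_
  rwa [sub_neg_eq_add]

end Pool.Agent.H44.RB
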